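import Pool.Agent.H33.TV.Sharp

/-!
# MP_c51d14_co: balanced families of linear maps on a polytope

Let `P` be a polytope of dimension `m` and let `f 1, …, f r` be linear maps `P → ℝⁿ` with
`f 1 + … + f r = 0`. If `n + r ≤ m + 1`, then there are pairwise disjoint faces `F 1, …, F r` of `P` and
points `x j ∈ F j` with `f 1 (x 1) + … + f r (x r) = 0`, and the sum of the dimensions of the faces can be
taken to be at most `n`. The condition `n + r ≤ m + 1` cannot be weakened. If one allows weights (and empty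
faces for the labels of weight zero), then the condition is `n ≤ m`.

One application: if `f e`, for the edges `e = (a e, b e)` of a graph on the labels, are linear maps from
`P` to `ℝ^(d e)` and `∑ d e + r ≤ m + 1`, then there are points `x j` in pairwise disjoint faces with
`f e (x (a e)) = f e (x (b e))` for all edges. For a star with `r - 1` edges and one map `f` this is the
linear Tverberg theorem for polytopes, which answers Q1.

The proof uses the theorem on untied configurations of the library (Brouwer's fixed point theorem),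
which holds for all spaces of corrections of dimension at most `m` whose elements have zero sum at every
vertex. The bound for the dimensions comes from moving the points in a direction which preserves the
equations until one of them meets a proper face.
-/

set_option autoImplicit false

namespace Pool.Agent.Results.MP_c51d14_co.BalancedSystems

open Pool.Agent.H33.TV (IsPolytope dimSet IsLinearOn IsFace)

/-- `f` is a balanced family of linear maps on the `m`-dimensional polytope `P`: the sum of the maps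
is zero. -/
structure Balanced (m : ℕ) {N n r : ℕ} (P : Set (EuclideanSpace ℝ (Fin N)))
    (f : Fin r → P → EuclideanSpace ℝ (Fin n)) : Prop where
  polytope : IsPolytope P
  dim : dimSet P = m
  linear : ∀ j, IsLinearOn P (f j)
  sum : ∀ x, ∑ j, f j x = 0

/-- The points `x j` lie in the pairwise disjoint faces `F j` of `P`. -/
structure InDisjointFaces {N r : ℕ} (P : Set (EuclideanSpace ℝ (Fin N)))
    (F : Fin r → Set (EuclideanSpace ℝ (Fin N))) (x : Fin r → P) : Prop where
  face : ∀ j, IsFace P (F j)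
  disjoint : ∀ i j, i ≠ j → Disjoint (F i) (F j)
  mem : ∀ j, (x j : EuclideanSpace ℝ (Fin N)) ∈ F j

/-- (1) Each balanced family of `r ≥ 2` linear maps from `m`-dimensional polytopes to `ℝⁿ` has zero in
the sum of the images of pairwise disjoint faces if and only if `n + r ≤ m + 1`.
(2) In this case the sum of the dimensions of the faces can be taken at most `n`.
(3) The version with weights holds if and only if `n ≤ m`.
(4) Different linear maps for different pairs of labels.
(5) The linear Tverberg theorem for polytopes, with a bound for the dimensions of the faces. -/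
theorem result :
    (∀ n m r : ℕ, 2 ≤ r →
      ((∀ (N : ℕ) (P : Set (EuclideanSpace ℝ (Fin N))) (f : Fin r → P → EuclideanSpace ℝ (Fin n)),
        Balanced m P f → ∃ F x, InDisjointFaces P F x ∧ ∑ j, f j (x j) = 0) ↔ n + r ≤ m + 1)) ∧
    (∀ (n m r N : ℕ) (P : Set (EuclideanSpace ℝ (Fin N))) (f : Fin r → P → EuclideanSpace ℝ (Fin n)),
      2 ≤ r → n + r ≤ m + 1 → Balanced m P f →
        ∃ F x, InDisjointFaces P F x ∧ ∑ j, f j (x j) = 0 ∧ ∑ j, dimSet (F j) ≤ n) ∧
    (∀ n m r : ℕ, 2 ≤ r →
      ((∀ (N : ℕ) (P : Set (EuclideanSpace ℝ (Fin N))) (f : Fin r → P → EuclideanSpace ℝ (Fin n)),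
        Balanced m P f → ∃ (w : Fin r → ℝ) (F : Fin r → Set (EuclideanSpace ℝ (Fin N))) (x : Fin r → P),
          (∀ j, 0 ≤ w j) ∧ ∑ j, w j = 1 ∧
          (∀ j, w j ≠ 0 → IsFace P (F j) ∧ (x j : EuclideanSpace ℝ (Fin N)) ∈ F j) ∧
          (∀ j, w j = 0 → F j = ∅) ∧ (∀ i j, i ≠ j → Disjoint (F i) (F j)) ∧
          ∑ j, w j • f j (x j) = 0) ↔ n ≤ m)) ∧
    (∀ (r q N : ℕ) (P : Set (EuclideanSpace ℝ (Fin N))) (a b : Fin q → Fin r) (d : Fin q → ℕ)
      (f : ∀ e : Fin q, P → EuclideanSpace ℝ (Fin (d e))), 2 ≤ r → IsPolytope P →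
      ∑ e, d e + r ≤ dimSet P + 1 → (∀ e, IsLinearOn P (f e)) →
        ∃ F x, InDisjointFaces P F x ∧ (∀ e, f e (x (a e)) = f e (x (b e))) ∧
          ∑ j, dimSet (F j) ≤ ∑ e, d e) ∧
    (∀ (d r m N : ℕ) (P : Set (EuclideanSpace ℝ (Fin N))) (f : P → EuclideanSpace ℝ (Fin d)),
      2 ≤ r → (d + 1) * (r - 1) ≤ m → IsPolytope P → dimSet P = m → IsLinearOn P f →
        ∃ F : Fin r → Set (EuclideanSpace ℝ (Fin N)), (∀ j, IsFace P (F j)) ∧
          (∀ i j, i ≠ j → Disjoint (F i) (F j)) ∧ (⋂ j, f '' {x : P | (x : EuclideanSpace ℝ (Fin N)) ∈ F j}).Nonempty ∧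
          ∑ j, dimSet (F j) ≤ d * (r - 1)) := by
  refine ⟨fun n m r hr => ⟨fun h => ?_, fun hn N P f hf => ?_⟩, ?_,
    fun n m r hr => ⟨fun h => ?_, fun hn N P f hf => ?_⟩, ?_, ?_⟩
  · by_contra hcon
    obtain ⟨F, x, hF, h0⟩ := h m (Pool.Agent.H33.TV.PP m) (Pool.Agent.H33.TV.ff n m r)
      ⟨Pool.Agent.H33.TV.PP_polytope m, Pool.Agent.H33.TV.PP_dim m, Pool.Agent.H33.TV.ff_linear n m r,
        Pool.Agent.H33.TV.ff_sum n m r hr⟩
    exact Pool.Agent.H33.TV.sharp n m r hr (by omega) ⟨F, x, hF.face, hF.disjoint, hF.mem, h0⟩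
  · obtain ⟨F, x, h1, h2, h3, h4, -⟩ := Pool.Agent.H33.TV.balanced n r hr P hf.polytope
      (by rw [hf.dim]; exact hn) f hf.linear hf.sum
    exact ⟨F, x, ⟨h1, h2, h3⟩, h4⟩
  · intro n m r N P f hr hn hf
    obtain ⟨F, x, h1, h2, h3, h4, h5⟩ := Pool.Agent.H33.TV.balanced n r hr P hf.polytope
      (by rw [hf.dim]; exact hn) f hf.linear hf.sum
    exact ⟨F, x, ⟨h1, h2, h3⟩, h4, h5⟩
  · by_contra hcon
    exact Pool.Agent.H33.TV.sharp_weights n m r hr (by omega) (h m (Pool.Agent.H33.TV.PP m)
      (Pool.Agent.H33.TV.gg n m r) ⟨Pool.Agent.H33.TV.PP_polytope m, Pool.Agent.H33.TV.PP_dim m,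
        Pool.Agent.H33.TV.gg_linear n m r, Pool.Agent.H33.TV.gg_sum n m r hr⟩)
  · exact Pool.Agent.H33.TV.weights n r hr P hf.polytope (by rw [hf.dim]; exact hn) f hf.linear hf.sum
  · intro r q N P a b d f hr hP hn hf
    obtain ⟨F, x, h1, h2, h3, h4, h5⟩ := Pool.Agent.H33.TV.graph r q hr P hP a b d hn f hf
    exact ⟨F, x, ⟨h1, h2, h3⟩, h4, h5⟩
  · intro d r m N P f hr hm hP hdim hf
    exact Pool.Agent.H33.TV.tverberg d r hr P hP (by rw [hdim]; exact hm) f hf

end Pool.Agent.Results.MP_c51d14_co.BalancedSystems
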